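import Pool.Agent.V5helper60.GM.Stm4

/-!
# Project GM: the real layers for the prime two are cyclic
-/

set_option autoImplicit false

namespace Pool.Agent.V5helper18.GM

open IntermediateField Module Pool.Agent.Q60.MU Pool.Agent.W5h77.MB Pool.Agent.V5helper60.GM
open scoped ComplexConjugate

/-- Every unit modulo `2 ^ (N + 2)` is `5 ^ i` or `-5 ^ i`. -/
theorem unit_pm (N : ℕ) : ∃ g : (ZMod (2 ^ (N + 2)))ˣ, ∀ u : (ZMod (2 ^ (N + 2)))ˣ,
    u ∈ Subgroup.zpowers g ∨ u * (-1) ∈ Subgroup.zpowers g := by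
  have hord := ZMod.orderOf_five N
  have h5 : IsUnit (5 : ZMod (2 ^ (N + 2))) := by
    have : IsUnit ((5 : ℕ) : ZMod (2 ^ (N + 2))) := by
      rw [ZMod.isUnit_iff_coprime]
      exact Nat.Coprime.pow_right _ (by norm_num)
    simpa using this
  obtain ⟨g, hg⟩ := h5
  have hog : orderOf g = 2 ^ N := by
    rw [← orderOf_units, hg, hord]
  have hne : NeZero (2 ^ (N + 2)) := ⟨by positivity⟩
  have hcard : Nat.card (ZMod (2 ^ (N + 2)))ˣ = 2 ^ (N + 1) := by
    rw [Nat.card_eq_fintype_card, ZMod.card_units_eq_totient,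
      Nat.totient_prime_pow_succ Nat.prime_two]
    simp
  have hidx : (Subgroup.zpowers g).index = 2 := by
    have h1 := (Subgroup.zpowers g).card_mul_index
    rw [Nat.card_zpowers, hog, hcard] at h1
    exact Nat.eq_of_mul_eq_mul_left (show 0 < 2 ^ N by positivity) (h1.trans (pow_succ 2 N))
  have hd : 4 ∣ 2 ^ (N + 2) := ⟨2 ^ N, by rw [pow_add]; ring⟩
  let φ : (ZMod (2 ^ (N + 2)))ˣ →* (ZMod 4)ˣ := ZMod.unitsMap hd
  have hφg : φ g = 1 := by
    ext
    rw [ZMod.unitsMap_val, hg]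
    show (ZMod.castHom hd (ZMod 4)) 5 = 1
    rw [map_ofNat]
    decide
  have hneg : (-1 : (ZMod (2 ^ (N + 2)))ˣ) ∉ Subgroup.zpowers g := by
    intro h
    have h1 : Subgroup.zpowers g ≤ φ.ker := by
      rw [Subgroup.zpowers_le]
      exact hφg
    have h2 : φ (-1) = 1 := h1 h
    have h3 : ((φ (-1) : (ZMod 4)ˣ) : ZMod 4) = -1 := by
      rw [ZMod.unitsMap_val]
      show (ZMod.castHom hd (ZMod 4)) ((-1 : (ZMod (2 ^ (N + 2)))ˣ) : ZMod (2 ^ (N + 2))) = -1
      rw [Units.val_neg, Units.val_one, map_neg, map_one]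
    rw [h2] at h3
    revert h3
    decide
  refine ⟨g, fun u => ?_⟩
  by_cases hu : u ∈ Subgroup.zpowers g
  · exact Or.inl hu
  · right
    rw [Subgroup.mul_mem_iff_of_index_two hidx]
    exact ⟨fun h => absurd h hu, fun h => absurd h hneg⟩

/-- A homomorphism to the units modulo `2 ^ (N + 2)` with `-1` in its image is cyclic up to the
sign. -/
theorem exists_gen {G : Type} [Group G] {N : ℕ} (χ : G →* (ZMod (2 ^ (N + 2)))ˣ) :
    ∃ σ : G, ∀ τ : G, ∃ i : ℤ, χ (τ * (σ ^ i)⁻¹) = 1 ∨ χ (τ * (σ ^ i)⁻¹) = -1 := by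
  obtain ⟨g, hg⟩ := unit_pm N
  let Q := (ZMod (2 ^ (N + 2)))ˣ ⧸ Subgroup.zpowers (-1 : (ZMod (2 ^ (N + 2)))ˣ)
  let q : (ZMod (2 ^ (N + 2)))ˣ →* Q := QuotientGroup.mk' _
  have hq1 : q (-1) = 1 := by
    rw [QuotientGroup.mk'_apply, QuotientGroup.eq_one_iff]
    exact Subgroup.mem_zpowers _
  have hcyc : IsCyclic Q := by
    refine ⟨q g, fun x => ?_⟩
    obtain ⟨u, rfl⟩ := QuotientGroup.mk'_surjective _ x
    rcases hg u with ⟨i, hi⟩ | ⟨i, hi⟩
    · refine ⟨i, ?_⟩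
      exact (map_zpow q g i).symm.trans (congrArg q hi)
    · refine ⟨i, ?_⟩
      have h1 : q (g ^ i) = q (u * (-1)) := congrArg q hi
      rw [map_mul, hq1] at h1
      exact (map_zpow q g i).symm.trans (h1.trans (mul_one (q u)))
  have hcr : IsCyclic (q.comp χ).range := inferInstance
  obtain ⟨⟨_, σ, rfl⟩, hσ⟩ := hcr.exists_generator
  refine ⟨σ, fun τ => ?_⟩
  obtain ⟨i, hi⟩ := hσ ⟨(q.comp χ) τ, τ, rfl⟩
  refine ⟨i, ?_⟩
  have h1 : (q.comp χ σ) ^ i = q.comp χ τ := congrArg Subtype.val hi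
  have h2 : q (χ (τ * (σ ^ i)⁻¹)) = 1 := by
    have h3 : q.comp χ (τ * (σ ^ i)⁻¹) = 1 := by
      rw [map_mul, map_inv, map_zpow, h1, mul_inv_cancel]
    exact h3
  rw [QuotientGroup.mk'_apply, QuotientGroup.eq_one_iff] at h2
  obtain ⟨j, hj⟩ := h2
  have hj : (-1 : (ZMod (2 ^ (N + 2)))ˣ) ^ j = χ (τ * (σ ^ i)⁻¹) := hj
  rw [← hj]
  rcases Int.even_or_odd j with h | h
  · exact Or.inl h.neg_one_zpow
  · exact Or.inr h.neg_one_zpow

/-- **Job CYC2.** -/
theorem t_CYC2 : S_CYC2 := by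
  intro ι m R hR hreal
  obtain ⟨-, N0, hN0⟩ := hR
  obtain ⟨N, hN⟩ : ∃ N : ℕ, R ≤ adjoin ℚ {z : Qb | z ^ 2 ^ (N + 2) = 1} := by
    refine ⟨N0, hN0.trans ?_⟩
    apply adjoin.mono
    intro z hz
    show z ^ 2 ^ (N0 + 2) = 1
    rw [pow_add, pow_mul, show z ^ 2 ^ N0 = 1 from hz, one_pow]
  have hpos : 0 < 2 ^ (N + 2) := by positivity
  have hpn : NeZero (2 ^ (N + 2)) := ⟨hpos.ne'⟩
  have hpQ : NeZero ((2 ^ (N + 2) : ℕ) : Qb) := ⟨by exact_mod_cast hpos.ne'⟩
  have hne : HasEnoughRootsOfUnity Qb (2 ^ (N + 2)) := inferInstance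
  have hn : Nat.card { x // x ∈ rootsOfUnity (2 ^ (N + 2)) Qb } = 2 ^ (N + 2) :=
    HasEnoughRootsOfUnity.natCard_rootsOfUnity Qb (2 ^ (N + 2))
  let f : Gal(Qb/ℚ) →* (Qb ≃+* Qb) :=
    { toFun := fun g => g.toRingEquiv
      map_one' := rfl
      map_mul' := fun _ _ => rfl }
  let χ : Gal(Qb/ℚ) →* (ZMod (2 ^ (N + 2)))ˣ := (modularCyclotomicCharacter Qb hn).comp f
  have h1lt : 1 < 2 ^ (N + 2) := Nat.one_lt_two_pow (by omega)
  have hfact : Fact (1 < 2 ^ (N + 2)) := ⟨h1lt⟩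
  -- the kernel
  have hker : ∀ g, χ g = 1 → g ∈ R.fixingSubgroup := by
    intro g h1
    have h2 : adjoin ℚ {z : Qb | z ^ 2 ^ (N + 2) = 1} ≤ fixedField (Subgroup.zpowers g) := by
      rw [adjoin_le_iff]
      intro z hz
      have hz0 : z ≠ 0 := by
        rintro rfl
        have h3 : (0 : Qb) ^ 2 ^ (N + 2) = 1 := hz
        rw [zero_pow hpos.ne'] at h3
        exact zero_ne_one h3
      have h3 : Subgroup.zpowers g ≤ MulAction.stabilizer Gal(Qb/ℚ) z := by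
        rw [Subgroup.zpowers_le]
        have h4 : (Units.mk0 z hz0) ∈ rootsOfUnity (2 ^ (N + 2)) Qb := by
          rw [mem_rootsOfUnity]
          ext
          exact hz
        have h5 := modularCyclotomicCharacter.spec Qb hn (f g) h4
        have h6 : modularCyclotomicCharacter Qb hn (f g) = 1 := h1
        rw [h6] at h5
        show g z = z
        have h7 : (f g) z = z := by simpa [ZMod.val_one] using h5
        exact h7
      exact (mem_fixedField_iff _ _).2 fun f hf => h3 hf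
    rw [IntermediateField.mem_fixingSubgroup_iff]
    intro x hx
    exact (mem_fixedField_iff _ _).1 (h2 (hN hx)) g (Subgroup.mem_zpowers g)
  -- complex conjugation
  obtain ⟨c, hc, -⟩ := exists_conj ι
  have hcR : c ∈ R.fixingSubgroup := by
    rw [IntermediateField.mem_fixingSubgroup_iff]
    intro x hx
    have h1 := mem_realSub.1 (hreal hx)
    apply ι.injective
    show ι (c x) = ι x
    rw [hc, h1]
  have hχc : χ c = -1 := by
    show modularCyclotomicCharacter Qb hn (f c) = -1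
    ext
    rw [Units.val_neg, Units.val_one]
    symm
    apply modularCyclotomicCharacter.unique Qb hn
    intro t ht
    have h1 : t ^ 2 ^ (N + 2) = 1 := (mem_rootsOfUnity _ _).1 ht
    have h2 : (t : Qb) ^ 2 ^ (N + 2) = 1 := by
      have := congrArg (fun a : Qbˣ => (a : Qb)) h1
      simpa using this
    have h3 : ‖ι (t : Qb)‖ = 1 := by
      have h4 : (ι (t : Qb)) ^ 2 ^ (N + 2) = 1 := by rw [← map_pow, h2, map_one]
      exact Complex.norm_eq_one_of_pow_eq_one h4 hpos.ne'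
    have h4 : (t : Qb) ≠ 0 := t.ne_zero
    have h5 : c (t : Qb) = (t : Qb)⁻¹ := by
      apply ι.injective
      rw [hc, map_inv₀, Complex.inv_def, Complex.normSq_eq_norm_sq, h3]
      simp
    have h6 : (f c) (t : Qb) = (t : Qb)⁻¹ := h5
    rw [h6]
    have h7 : ((-1 : ZMod (2 ^ (N + 2)))).val + 1 = 2 ^ (N + 2) := by
      obtain ⟨M, hM⟩ : ∃ M, 2 ^ (N + 2) = M + 1 := ⟨2 ^ (N + 2) - 1, by omega⟩
      have h8 : ∀ K M : ℕ, K = M + 1 → ((-1 : ZMod K)).val + 1 = K := by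
        rintro K M rfl
        rw [ZMod.val_neg_one]
      exact h8 _ M hM
    rw [inv_eq_iff_eq_inv, eq_comm]
    apply inv_eq_of_mul_eq_one_left
    rw [← pow_succ', h7, h2]
  obtain ⟨σ, hσ⟩ := exists_gen χ
  refine ⟨σ, fun τ => ?_⟩
  obtain ⟨i, hi | hi⟩ := hσ τ
  · exact ⟨i, hker _ hi⟩
  · refine ⟨i, ?_⟩
    have h1 : χ (τ * (σ ^ i)⁻¹ * c) = 1 := by
      rw [map_mul, hi, hχc]
      simp
    have h2 := R.fixingSubgroup.mul_mem (hker _ h1) (R.fixingSubgroup.inv_mem hcR)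
    rwa [mul_inv_cancel_right] at h2

end Pool.Agent.V5helper18.GM
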